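import Pool.Agent.R630.EQ.Real
import Pool.Agent.Y430.SS.Lf

/-!
# Partitions into blocks, germs along blocks, and the step of the induction
-/

set_option autoImplicit false

namespace Pool.Agent.R630.EQ

open Pool.Agent.Y110.FJ Filter Topology
open Pool.Agent.Y462.SS (Closed)
open Pool.Agent.R615.SC

section Defs

variable (D : Type) {Y : Type} [Group D] [MulAction D Y]

/-- the elements of `D` which map `K` onto itself -/
def stabS (K : Set Y) : Subgroup D where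
  carrier := {d | ∀ z, d • z ∈ K ↔ z ∈ K}
  one_mem' z := by rw [one_smul]
  mul_mem' {a b} ha hb z := by rw [mul_smul, ha, hb]
  inv_mem' {a} ha z := by rw [← ha, smul_inv_smul]

variable [TopologicalSpace Y]

/-- the elements of `stabS D K` which fix all points of a neighbourhood of `K` -/
def gkerS (K : Set Y) : Subgroup (stabS D K) where
  carrier := {d | ∀ᶠ z in 𝓝ˢ K, d.1 • z = z}
  one_mem' := by
    change ∀ᶠ z in 𝓝ˢ K, (1 : D) • z = z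
    exact Eventually.of_forall fun z => one_smul D z
  mul_mem' {a b} ha hb := by
    have ha' : ∀ᶠ z in 𝓝ˢ K, a.1 • z = z := ha
    have hb' : ∀ᶠ z in 𝓝ˢ K, b.1 • z = z := hb
    change ∀ᶠ z in 𝓝ˢ K, (a.1 * b.1) • z = z
    filter_upwards [ha', hb'] with z h1 h2
    rw [mul_smul, h2, h1]
  inv_mem' {a} ha := by
    have ha' : ∀ᶠ z in 𝓝ˢ K, a.1 • z = z := ha
    change ∀ᶠ z in 𝓝ˢ K, (a.1)⁻¹ • z = z
    filter_upwards [ha'] with z h1
    rw [inv_smul_eq_iff]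
    exact h1.symm

variable [ContinuousConstSMul D Y]

theorem tend (d : D) {K L : Set Y} (h : ∀ z ∈ K, d • z ∈ L) :
    Tendsto (fun z => d • z) (𝓝ˢ K) (𝓝ˢ L) :=
  (continuous_const_smul d).tendsto_nhdsSet h

instance gkerS_normal (K : Set Y) : (gkerS D K).Normal where
  conj_mem a ha b := by
    have hc : Tendsto (fun z => (b.1)⁻¹ • z) (𝓝ˢ K) (𝓝ˢ K) :=
      tend D (b.1)⁻¹ (fun z hz => ((stabS D K).inv_mem b.2 z).2 hz)
    have ha' : ∀ᶠ z in 𝓝ˢ K, a.1 • z = z := ha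
    change ∀ᶠ z in 𝓝ˢ K, (b.1 * a.1 * (b.1)⁻¹) • z = z
    filter_upwards [hc.eventually ha'] with z hz
    rw [mul_smul, mul_smul, hz, smul_inv_smul]

/-- The group of germs along `K` of the elements of `D` which map `K` onto itself. -/
abbrev GermS (K : Set Y) : Type := stabS D K ⧸ gkerS D K

/-- A sequence of finer and finer invariant partitions of the invariant set `S ⊆ Z` into compact sets
which are open in `Z`; the set of the `n`th partition containing `y` is `P n y`. The sets generate the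
topology of `Y` at the points of `S`, restricted to `Z`. -/
structure Blocks (S Z : Set Y) (P : ℕ → Y → Set Y) : Prop where
  subset : S ⊆ Z
  smul : ∀ (d : D), ∀ y ∈ S, d • y ∈ S
  mem : ∀ n, ∀ y ∈ S, y ∈ P n y
  sub : ∀ n, ∀ y ∈ S, P n y ⊆ S
  eq : ∀ n, ∀ y ∈ S, ∀ z ∈ P n y, P n z = P n y
  inv : ∀ n, ∀ y ∈ S, ∀ (d : D) (z : Y), z ∈ P n y → d • z ∈ P n (d • y)
  anti : ∀ n, ∀ y ∈ S, P (n + 1) y ⊆ P n y
  cpt : ∀ n, ∀ y ∈ S, IsCompact (P n y)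
  opn : ∀ n, ∀ y ∈ S, ∃ O, IsOpen O ∧ O ∩ Z = P n y
  gen : ∀ y ∈ S, ∀ O, IsOpen O → y ∈ O → ∃ n, P n y ⊆ O

end Defs

section Cls

variable {D Y : Type} [Group D] [MulAction D Y] [TopologicalSpace Y] [ContinuousConstSMul D Y]

theorem exists_cls {K : Set Y} {h : Equiv.Perm Y} (hh : ∃ d : D, ∀ᶠ z in 𝓝ˢ K, h z = d • z)
    (hK : ∀ z, h z ∈ K ↔ z ∈ K) : ∃ d : stabS D K, ∀ᶠ z in 𝓝ˢ K, h z = d.1 • z := by
  obtain ⟨d, hd⟩ := hh
  have h1 : ∀ z ∈ K, h z = d • z := fun z hz => hd.self_of_nhdsSet z hz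
  refine ⟨⟨d, fun z => ⟨fun hz => ?_, fun hz => ?_⟩⟩, hd⟩
  · have hw : h⁻¹ (d • z) ∈ K := by
      rw [← hK, ai]
      exact hz
    have h2 := h1 _ hw
    rw [ai] at h2
    have h3 : h⁻¹ (d • z) = z := by
      have := congrArg (fun x => d⁻¹ • x) h2
      simp only [inv_smul_smul] at this
      exact this.symm
    rw [← h3]
    exact hw
  · rw [← h1 z hz]
    exact (hK z).2 hz

/-- The class in the germ group. -/
noncomputable def gcls (K : Set Y) {h : Equiv.Perm Y} (hh : ∃ d : D, ∀ᶠ z in 𝓝ˢ K, h z = d • z)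
    (hK : ∀ z, h z ∈ K ↔ z ∈ K) : GermS D K := QuotientGroup.mk (exists_cls hh hK).choose

theorem gcls_eq {K : Set Y} {h : Equiv.Perm Y} (hh : ∃ d : D, ∀ᶠ z in 𝓝ˢ K, h z = d • z)
    (hK : ∀ z, h z ∈ K ↔ z ∈ K) (d : stabS D K) (hd : ∀ᶠ z in 𝓝ˢ K, h z = d.1 • z) :
    gcls K hh hK = QuotientGroup.mk d := by
  have h1 := (exists_cls hh hK).choose_spec
  unfold gcls
  rw [QuotientGroup.eq]
  change ∀ᶠ z in 𝓝ˢ K, (((exists_cls hh hK).choose.1)⁻¹ * d.1) • z = z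
  filter_upwards [h1, hd] with z h2 h3
  rw [mul_smul, ← h3, h2, inv_smul_smul]

theorem gcls_mul {K : Set Y} {h k : Equiv.Perm Y} (hh : ∃ d : D, ∀ᶠ z in 𝓝ˢ K, h z = d • z)
    (hK : ∀ z, h z ∈ K ↔ z ∈ K) (hk : ∃ d : D, ∀ᶠ z in 𝓝ˢ K, k z = d • z)
    (kK : ∀ z, k z ∈ K ↔ z ∈ K) (hhk : ∃ d : D, ∀ᶠ z in 𝓝ˢ K, (h * k) z = d • z)
    (hkK : ∀ z, (h * k) z ∈ K ↔ z ∈ K) :
    gcls K hhk hkK = gcls K hh hK * gcls K hk kK := by
  obtain ⟨d, hd⟩ := exists_cls hh hK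
  obtain ⟨e, he⟩ := exists_cls hk kK
  rw [gcls_eq hh hK d hd, gcls_eq hk kK e he, ← QuotientGroup.mk_mul]
  apply gcls_eq
  have hc : Tendsto (fun z => e.1 • z) (𝓝ˢ K) (𝓝ˢ K) := tend D e.1 (fun z hz => (e.2 z).2 hz)
  filter_upwards [he, hc.eventually hd] with z h1 h2
  rw [Equiv.Perm.mul_apply, h1, h2]
  exact (mul_smul d.1 e.1 z).symm

theorem gcls_one_iff {K : Set Y} {h : Equiv.Perm Y} (hh : ∃ d : D, ∀ᶠ z in 𝓝ˢ K, h z = d • z)
    (hK : ∀ z, h z ∈ K ↔ z ∈ K) : gcls K hh hK = 1 ↔ ∀ᶠ z in 𝓝ˢ K, h z = z := by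
  obtain ⟨d, hd⟩ := exists_cls hh hK
  rw [gcls_eq hh hK d hd, QuotientGroup.eq_one_iff]
  constructor
  · intro h1
    have h2 : ∀ᶠ z in 𝓝ˢ K, d.1 • z = z := h1
    filter_upwards [h2, hd] with z h3 h4
    rw [h4, h3]
  · intro h1
    change ∀ᶠ z in 𝓝ˢ K, d.1 • z = z
    filter_upwards [h1, hd] with z h3 h4
    rw [← h4, h3]

end Cls

section Step

variable {D Y : Type} [Group D] [MulAction D Y] [TopologicalSpace Y] [ContinuousConstSMul D Y]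
  [T2Space Y]

omit [T2Space Y] in
theorem Blocks.anti_le {S Z : Set Y} {P : ℕ → Y → Set Y} (hP : Blocks D S Z P) {n m : ℕ}
    (h : n ≤ m) {y : Y} (hy : y ∈ S) : P m y ⊆ P n y := by
  induction h with
  | refl => exact subset_rfl
  | step _ ih => exact (hP.anti _ y hy).trans ih

omit [T2Space Y] in
theorem Blocks.inv_image {S Z : Set Y} {P : ℕ → Y → Set Y} (hP : Blocks D S Z P) (n : ℕ) {y : Y}
    (hy : y ∈ S) (d : D) : (fun z => d • z) '' P n y = P n (d • y) := by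
  ext z
  constructor
  · rintro ⟨w, hw, rfl⟩
    exact hP.inv n y hy d w hw
  · intro hz
    refine ⟨d⁻¹ • z, ?_, smul_inv_smul d z⟩
    have h1 := hP.inv n (d • y) (hP.smul d y hy) d⁻¹ z hz
    rwa [inv_smul_smul] at h1

/-- An element which is trivial near `V \ U` is supported in a compact open subset of `U`. -/
theorem exists_suppS
    (hB : ∀ (y : Y) (O : Set Y), IsOpen O → y ∈ O → ∃ W, IsOpen W ∧ IsCompact W ∧ y ∈ W ∧ W ⊆ O)
    {U V : Set Y} (hU : IsOpen U) (hVc : IsCompact V)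
    {h : Equiv.Perm Y} (hh : ∀ y ∉ V, h y = y) (hs : ∀ᶠ z in 𝓝ˢ (V \ U), h z = z) :
    ∃ W, IsOpen W ∧ IsCompact W ∧ W ⊆ U ∧ ∀ y ∉ W, h y = y := by
  obtain ⟨O, hO, hTO, hO2⟩ : ∃ O : Set Y, IsOpen O ∧ V \ U ⊆ O ∧ ∀ z ∈ O, h z = z := by
    obtain ⟨O, h1, h2, h3⟩ := mem_nhdsSet_iff_exists.1 hs
    exact ⟨O, h1, h2, h3⟩
  have hc : IsCompact (V \ O) := hVc.diff hO
  have hsub : V \ O ⊆ U := by
    intro y hy
    by_contra hyU
    exact hy.2 (hTO ⟨hy.1, hyU⟩)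
  have h1 : ∀ y : Y, ∃ W, IsOpen W ∧ IsCompact W ∧ (y ∈ U → y ∈ W ∧ W ⊆ U) := by
    intro y
    by_cases hy : y ∈ U
    · obtain ⟨W, hW1, hW2, hW3, hW4⟩ := hB y U hU hy
      exact ⟨W, hW1, hW2, fun _ => ⟨hW3, hW4⟩⟩
    · exact ⟨∅, isOpen_empty, isCompact_empty, fun h => absurd h hy⟩
  choose B hB1 hB2 hB3 using h1
  obtain ⟨t, ht, htf, htc⟩ := hc.elim_finite_subcover_image (b := U) (c := B) (fun i _ => hB1 i)
    (fun y hy => Set.mem_iUnion₂.2 ⟨y, hsub hy, (hB3 y (hsub hy)).1⟩)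
  refine ⟨⋃ i ∈ t, B i, isOpen_biUnion fun i _ => hB1 i, htf.isCompact_biUnion fun i _ => hB2 i,
    Set.iUnion₂_subset fun i hi => (hB3 i (ht hi)).2, fun y hy => ?_⟩
  by_cases hyV : y ∈ V
  · by_cases hyO : y ∈ O
    · exact hO2 y hyO
    · exact absurd (htc ⟨hyV, hyO⟩) hy
  · exact hh y hyV

/-- the elements of `fv D V` which are given by one element of `D` near each block of level `n` -/
def Hn {S Z : Set Y} {P : ℕ → Y → Set Y} (hP : Blocks D S Z P) (V T : Set Y) (hTS : T ⊆ S)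
    (hT : ∀ h ∈ fv D V, ∀ y ∈ T, h y ∈ T) (n : ℕ) : Subgroup (fv D V) where
  carrier := {h | ∀ y ∈ T, ∃ d : D, ∀ᶠ z in 𝓝ˢ (P n y), h.1 z = d • z}
  one_mem' y _ := ⟨1, Eventually.of_forall fun z => (one_smul D z).symm⟩
  mul_mem' {a b} ha hb y hy := by
    obtain ⟨d, hd⟩ := hb y hy
    obtain ⟨e, he⟩ := ha (b.1 y) (hT b.1 b.2 y hy)
    have hby : b.1 y = d • y := hd.self_of_nhdsSet y (hP.mem n y (hTS hy))
    rw [hby] at he
    refine ⟨e * d, ?_⟩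
    have hc : Tendsto (fun z => d • z) (𝓝ˢ (P n y)) (𝓝ˢ (P n (d • y))) :=
      tend D d (hP.inv n y (hTS hy) d)
    filter_upwards [hd, hc.eventually he] with z h1 h2
    change a.1 (b.1 z) = _
    rw [h1, h2, mul_smul]
  inv_mem' {a} ha y hy := by
    have hx : (a.1)⁻¹ y ∈ T := hT _ ((fv D V).inv_mem a.2) y hy
    obtain ⟨d, hd⟩ := ha _ hx
    have h0 : y = d • ((a.1)⁻¹ y) := by
      have h := hd.self_of_nhdsSet _ (hP.mem n _ (hTS hx))
      rwa [ai] at h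
    refine ⟨d⁻¹, ?_⟩
    have h1 : d⁻¹ • y = (a.1)⁻¹ y := by
      rw [inv_smul_eq_iff]
      exact h0
    have hc : Tendsto (fun z => d⁻¹ • z) (𝓝ˢ (P n y)) (𝓝ˢ (P n ((a.1)⁻¹ y))) := by
      rw [← h1]
      exact tend D d⁻¹ (hP.inv n y (hTS hy) d⁻¹)
    filter_upwards [hc.eventually hd] with z hz
    rw [smul_inv_smul] at hz
    change (a.1)⁻¹ z = _
    rw [Equiv.Perm.inv_eq_iff_eq]
    exact hz.symm

theorem hn_mem {C : ∀ (G : Type) [Group G], Prop} (hC : ClosedE C)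
    (hB : ∀ (y : Y) (O : Set Y), IsOpen O → y ∈ O → ∃ W, IsOpen W ∧ IsCompact W ∧ y ∈ W ∧ W ⊆ O)
    (hD : ∀ V : Set Y, IsCompact V → ∃ d : D, ∀ y ∈ V, d • y ∉ V)
    {U : Set Y} (hUo : IsOpen U) (hU : ∀ (d : D) (y : Y), y ∈ U → d • y ∈ U)
    (hPU : ∀ V : Set Y, IsOpen V → IsCompact V → V ⊆ U → C (fv D V))
    {S : Set Y} {P : ℕ → Y → Set Y} (hP : Blocks D S Uᶜ P)
    {V : Set Y} (hVc : IsCompact V) (hTS : V \ U ⊆ S)
    (hT : ∀ h ∈ fv D V, ∀ y ∈ V \ U, h y ∈ V \ U)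
    (hgerm : ∀ n, ∀ y ∈ S, C (GermS D (P n y))) (n : ℕ) (hn : ∀ y ∈ V \ U, P n y ⊆ V \ U) :
    C (Hn hP V (V \ U) hTS hT n) := by
  classical
  have hTc : IsCompact (V \ U) := hVc.diff hUo
  let 𝓑 : Set (Set Y) := {K | ∃ y ∈ V \ U, K = P n y}
  have hfin : 𝓑.Finite := by
    have h1 : ∀ y : Y, ∃ O : Set Y, IsOpen O ∧ (y ∈ V \ U → O ∩ Uᶜ = P n y) := by
      intro y
      by_cases hy : y ∈ V \ U
      · obtain ⟨O, h1, h2⟩ := hP.opn n y (hTS hy)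
        exact ⟨O, h1, fun _ => h2⟩
      · exact ⟨∅, isOpen_empty, fun h => absurd h hy⟩
    choose O hO1 hO2 using h1
    have hyO : ∀ y ∈ V \ U, y ∈ O y := fun y hy => by
      have h2 : y ∈ O y ∩ Uᶜ := by
        rw [hO2 y hy]
        exact hP.mem n y (hTS hy)
      exact h2.1
    obtain ⟨t, ht, htf, htc⟩ := hTc.elim_finite_subcover_image (b := V \ U) (c := O)
      (fun i _ => hO1 i) (fun y hy => Set.mem_iUnion₂.2 ⟨y, hy, hyO y hy⟩)
    refine (htf.image (fun y => P n y)).subset ?_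
    rintro K ⟨y, hy, rfl⟩
    obtain ⟨i, hi, hyi⟩ := Set.mem_iUnion₂.1 (htc hy)
    refine ⟨i, hi, ?_⟩
    have h3 : y ∈ P n i := by
      rw [← hO2 i (ht hi)]
      exact ⟨hyi, hy.2⟩
    exact (hP.eq n i (hTS (ht hi)) y h3).symm
  have hfin' : Finite 𝓑 := hfin
  let H := Hn hP V (V \ U) hTS hT n
  have himg : ∀ (h : H) (K : Set Y), K ∈ 𝓑 → (fun z => h.1.1 z) '' K ∈ 𝓑 := by
    rintro h _ ⟨y, hy, rfl⟩
    obtain ⟨d, hd⟩ := h.2 y hy
    have h1 : ∀ z ∈ P n y, h.1.1 z = d • z := fun z hz => hd.self_of_nhdsSet z hz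
    refine ⟨h.1.1 y, hT _ h.1.2 y hy, ?_⟩
    rw [h1 y (hP.mem n y (hTS hy)), ← hP.inv_image n (hTS hy) d]
    exact Set.image_congr h1
  let act : MulAction H 𝓑 :=
    { smul := fun h K => ⟨(fun z => h.1.1 z) '' K.1, himg h K.1 K.2⟩
      one_smul := fun K => Subtype.ext (by
        change (fun z => z) '' K.1 = K.1
        exact Set.image_id' K.1)
      mul_smul := fun h k K => Subtype.ext (by
        change (fun z => h.1.1 (k.1.1 z)) '' K.1 = (fun z => h.1.1 z) '' ((fun z => k.1.1 z) '' K.1)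
        rw [Set.image_image]) }
  let ρ : H →* Equiv.Perm 𝓑 := MulAction.toPermHom H 𝓑
  have hρ : ρ.ker.FiniteIndex := inferInstance
  refine hC.base.finiteIndex H ρ.ker hρ ?_
  have hfix : ∀ (h : ρ.ker) (K : 𝓑) (z : Y), h.1.1.1 z ∈ K.1 ↔ z ∈ K.1 := by
    intro h K z
    have h1 : ρ h.1 = 1 := h.2
    have h2 := congrArg (fun p : Equiv.Perm 𝓑 => p K) h1
    have h3 : (fun z => h.1.1.1 z) '' K.1 = K.1 := congrArg Subtype.val h2
    constructor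
    · intro hz
      rw [← h3] at hz
      obtain ⟨w, hw, hwz⟩ := hz
      have h4 : w = z := h.1.1.1.injective hwz
      rwa [← h4]
    · intro hz
      rw [← h3]
      exact ⟨z, hz, rfl⟩
  have hex : ∀ (h : ρ.ker) (K : 𝓑), ∃ d : D, ∀ᶠ z in 𝓝ˢ K.1, h.1.1.1 z = d • z := by
    rintro h ⟨_, y, hy, rfl⟩
    exact h.1.2 y hy
  let θ : ρ.ker →* (∀ K : 𝓑, GermS D K.1) := MonoidHom.mk'
    (fun h K => gcls K.1 (hex h K) (hfix h K)) (fun a b => funext fun K => gcls_mul _ _ _ _ _ _)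
  have hQ : C (ρ.ker ⧸ θ.ker) :=
    hC.base.of_injective _ _ (QuotientGroup.kerLift θ) (QuotientGroup.kerLift_injective θ)
      (pi_finite hC.base _ _ fun K => by
        obtain ⟨_, y, hy, rfl⟩ := K
        exact hgerm n y (hTS hy))
  refine Pool.Agent.R630.FJ.crit C hC ρ.ker θ.ker hQ ?_
  intro g E hE hEN
  let ψ : ρ.ker →* Equiv.Perm Y := (fv D V).subtype.comp (H.subtype.comp ρ.ker.subtype)
  refine realize hD hU hPU ψ (fun a => a.1.1.2.1) θ.ker (fun a _ ha => ?_) (fun a ha => ?_) g E hE hEN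
  · exact Subtype.ext (Subtype.ext (Subtype.ext ha))
  · refine exists_suppS hB hUo hVc a.1.1.2.2 ?_
    have h1 : θ a = 1 := ha
    have h2 : ∀ K : 𝓑, ∀ᶠ z in 𝓝ˢ K.1, a.1.1.1 z = z := fun K =>
      (gcls_one_iff (hex a K) (hfix a K)).mp (congrFun h1 K)
    have h3 : V \ U = ⋃ K : 𝓑, K.1 := by
      ext y
      rw [Set.mem_iUnion]
      constructor
      · intro hy
        exact ⟨⟨P n y, y, hy, rfl⟩, hP.mem n y (hTS hy)⟩
      · rintro ⟨⟨_, x, hx, rfl⟩, hy⟩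
        exact hn x hx hy
    rw [h3, nhdsSet_iUnion, eventually_iSup]
    exact h2

end Step

end Pool.Agent.R630.EQ
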