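import Pool.Agent.R630.EQ.Blk

/-!
# Piecewise homeomorphisms of stratified spaces
-/

set_option autoImplicit false

namespace Pool.Agent.R630.EQ

open Pool.Agent.Y110.FJ Filter Topology
open Pool.Agent.Y462.SS (Closed)
open Pool.Agent.R615.SC

/-- The subsets of `Y` which are built, starting from the empty set, by unions of chains and by adding
to a set `U` a set `S` with a sequence of partitions `P` as in `Blocks D S Uᶜ P` such that all groups
of germs along the sets `P n y` are in `C`. -/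
inductive Filt (C : ∀ (G : Type) [Group G], Prop) (D : Type) {Y : Type} [Group D] [MulAction D Y]
    [TopologicalSpace Y] [ContinuousConstSMul D Y] : Set Y → Prop
  | chain (c : Set (Set Y)) : (∀ U ∈ c, Filt C D U) → IsChain (· ⊆ ·) c → Filt C D (⋃₀ c)
  | step (U S : Set Y) (P : ℕ → Y → Set Y) : Filt C D U → Blocks D S Uᶜ P →
      (∀ n, ∀ y ∈ S, C (GermS D (P n y))) → Filt C D (U ∪ S)

section Big

variable {D Y : Type} [Group D] [MulAction D Y] [TopologicalSpace Y] [ContinuousConstSMul D Y]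
  [T2Space Y]

theorem stepS {C : ∀ (G : Type) [Group G], Prop} (hC : ClosedE C)
    (hB : ∀ (y : Y) (O : Set Y), IsOpen O → y ∈ O → ∃ W, IsOpen W ∧ IsCompact W ∧ y ∈ W ∧ W ⊆ O)
    (hD : ∀ V : Set Y, IsCompact V → ∃ d : D, ∀ y ∈ V, d • y ∉ V)
    {U : Set Y} (hUo : IsOpen U) (hU : ∀ (d : D) (y : Y), y ∈ U → d • y ∈ U)
    (hPU : ∀ V : Set Y, IsOpen V → IsCompact V → V ⊆ U → C (fv D V))
    {S : Set Y} {P : ℕ → Y → Set Y} (hP : Blocks D S Uᶜ P)
    (hgerm : ∀ n, ∀ y ∈ S, C (GermS D (P n y)))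
    {V : Set Y} (hVo : IsOpen V) (hVc : IsCompact V) (hTS : V \ U ⊆ S) : C (fv D V) := by
  classical
  have hTc : IsCompact (V \ U) := hVc.diff hUo
  have hT : ∀ h ∈ fv D V, ∀ y ∈ V \ U, h y ∈ V \ U := by
    intro h hh y hy
    refine ⟨perm_mem hh.2 hy.1, fun hcon => hy.2 ?_⟩
    have h1 := full_inv_set ((full D Y).inv_mem hh.1) hU hcon
    rwa [ia] at h1
  -- a finite number of blocks which refine a given local condition
  have key : ∀ Q : Set Y → Prop, (∀ K L : Set Y, K ⊆ L → Q L → Q K) →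
      (∀ y ∈ V \ U, ∃ n, Q (P n y)) → ∃ n, ∀ m, n ≤ m → ∀ y ∈ V \ U, Q (P m y) := by
    intro Q hQ hex
    have h1 : ∀ y : Y, ∃ (n : ℕ) (O : Set Y), IsOpen O ∧ (y ∈ V \ U → Q (P n y) ∧ O ∩ Uᶜ = P n y) := by
      intro y
      by_cases hy : y ∈ V \ U
      · obtain ⟨n, hn⟩ := hex y hy
        obtain ⟨O, h1, h2⟩ := hP.opn n y (hTS hy)
        exact ⟨n, O, h1, fun _ => ⟨hn, h2⟩⟩
      · exact ⟨0, ∅, isOpen_empty, fun h => absurd h hy⟩
    choose N O hO1 hO2 using h1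
    have hyO : ∀ y ∈ V \ U, y ∈ O y := fun y hy => by
      have h2 : y ∈ O y ∩ Uᶜ := by
        rw [(hO2 y hy).2]
        exact hP.mem _ y (hTS hy)
      exact h2.1
    obtain ⟨t, ht, htf, htc⟩ := hTc.elim_finite_subcover_image (b := V \ U) (c := O)
      (fun i _ => hO1 i) (fun y hy => Set.mem_iUnion₂.2 ⟨y, hy, hyO y hy⟩)
    obtain ⟨n, hn⟩ : ∃ n, ∀ i ∈ t, N i ≤ n := by
      obtain ⟨n, hn⟩ := (htf.image N).bddAbove
      exact ⟨n, fun i hi => hn ⟨i, hi, rfl⟩⟩
    refine ⟨n, fun m hm y hy => ?_⟩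
    obtain ⟨i, hi, hyi⟩ := Set.mem_iUnion₂.1 (htc hy)
    have h3 : y ∈ P (N i) i := by
      rw [← (hO2 i (ht hi)).2]
      exact ⟨hyi, hy.2⟩
    have h4 : P (N i) y = P (N i) i := hP.eq _ i (hTS (ht hi)) y h3
    refine hQ _ _ (hP.anti_le ((hn i hi).trans hm) (hTS hy)) ?_
    rw [h4]
    exact (hO2 i (ht hi)).1
  obtain ⟨n₀, hn₀⟩ := key (fun K => K ⊆ V \ U) (fun K L h1 h2 => h1.trans h2) (fun y hy => by
    obtain ⟨n, hn⟩ := hP.gen y (hTS hy) V hVo hy.1
    exact ⟨n, fun z hz => ⟨hn hz, hP.subset (hP.sub n y (hTS hy) hz)⟩⟩)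
  let I : Type := {n : ℕ // n₀ ≤ n}
  have : Nonempty I := ⟨⟨n₀, le_rfl⟩⟩
  have hmono : ∀ n m : ℕ, n ≤ m → Hn hP V (V \ U) hTS hT n ≤ Hn hP V (V \ U) hTS hT m := by
    intro n m hnm h hh y hy
    obtain ⟨d, hd⟩ := hh y hy
    exact ⟨d, hd.filter_mono (nhdsSet_mono (hP.anti_le hnm (hTS hy)))⟩
  refine Pool.Agent.Y430.SS.of_directed hC.base (fv D V) I (fun i j => ?_)
    (fun i => Hn hP V (V \ U) hTS hT i.1) (fun i j hij => hmono _ _ hij) (fun h => ?_)
    (fun i => hn_mem hC hB hD hUo hU hPU hP hVc hTS hT hgerm i.1 (hn₀ i.1 i.2))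
  · exact ⟨⟨max i.1 j.1, i.2.trans (le_max_left _ _)⟩, le_max_left i.1 j.1, le_max_right i.1 j.1⟩
  · obtain ⟨n, hn⟩ := key (fun K => ∃ d : D, ∀ᶠ z in 𝓝ˢ K, h.1 z = d • z)
      (fun K L h1 ⟨d, hd⟩ => ⟨d, hd.filter_mono (nhdsSet_mono h1)⟩) (fun y hy => by
        obtain ⟨d, hd⟩ := h.2.1 y
        obtain ⟨O, h1, h2, h3⟩ := eventually_nhds_iff.1 hd
        obtain ⟨n, hn⟩ := hP.gen y (hTS hy) O h2 h3
        exact ⟨n, d, Filter.mem_of_superset (h2.mem_nhdsSet.2 hn) h1⟩)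
    exact ⟨⟨max n n₀, le_max_right _ _⟩, hn _ (le_max_left _ _)⟩

theorem filt_fv {C : ∀ (G : Type) [Group G], Prop} (hC : ClosedE C)
    (hB : ∀ (y : Y) (O : Set Y), IsOpen O → y ∈ O → ∃ W, IsOpen W ∧ IsCompact W ∧ y ∈ W ∧ W ⊆ O)
    (hD : ∀ V : Set Y, IsCompact V → ∃ d : D, ∀ y ∈ V, d • y ∉ V) (U : Set Y)
    (hF : Filt C D U) : IsOpen U ∧ (∀ (d : D) (y : Y), y ∈ U → d • y ∈ U) ∧
      ∀ V : Set Y, IsOpen V → IsCompact V → V ⊆ U → C (fv D V) := by
  classical
  induction hF with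
  | chain c hc hch ih =>
    refine ⟨isOpen_sUnion fun s hs => (ih s hs).1, ?_, ?_⟩
    · rintro d y ⟨s, hs, hy⟩
      exact ⟨s, hs, (ih s hs).2.1 d y hy⟩
    · intro V hVo hVc hV
      by_cases hne : c.Nonempty
      · have := hne.to_subtype
        obtain ⟨i, hi⟩ := hVc.elim_directed_cover (fun i : c => i.1) (fun i => (ih i.1 i.2).1)
          (by rwa [Set.sUnion_eq_iUnion] at hV) (hch.directedOn.directed_val)
        exact (ih i.1 i.2).2.2 V hVo hVc hi
      · have hV0 : ∀ y, y ∉ V := by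
          intro y hy
          obtain ⟨s, hs, _⟩ := hV hy
          exact hne ⟨s, hs⟩
        have : Subsingleton (fv D V) := ⟨fun a b => Subtype.ext (Equiv.ext fun y => by
          rw [a.2.2 y (hV0 y), b.2.2 y (hV0 y)])⟩
        exact triv_mem hC.base _
  | step U S P hU hP hg ih =>
    refine ⟨?_, ?_, ?_⟩
    · have hop : ∀ y : Y, ∃ O : Set Y, IsOpen O ∧ (y ∈ S → O ∩ Uᶜ = P 0 y) ∧ (y ∉ S → O = ∅) := by
        intro y
        by_cases hy : y ∈ S
        · obtain ⟨O, h1, h2⟩ := hP.opn 0 y hy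
          exact ⟨O, h1, fun _ => h2, fun h => absurd hy h⟩
        · exact ⟨∅, isOpen_empty, fun h => absurd h hy, fun _ => rfl⟩
      choose O hO1 hO2 hO3 using hop
      have hU'eq : U ∪ S = U ∪ ⋃ y, O y := by
        symm
        ext z
        constructor
        · rintro (hz | hz)
          · exact Or.inl hz
          · obtain ⟨y, hy⟩ := Set.mem_iUnion.1 hz
            by_cases hzU : z ∈ U
            · exact Or.inl hzU
            · right
              by_cases hyS : y ∈ S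
              · have h1 : z ∈ P 0 y := by
                  rw [← hO2 y hyS]
                  exact ⟨hy, hzU⟩
                exact hP.sub 0 y hyS h1
              · rw [hO3 y hyS] at hy
                exact absurd hy (Set.notMem_empty z)
        · rintro (hz | hz)
          · exact Or.inl hz
          · right
            refine Set.mem_iUnion.2 ⟨z, ?_⟩
            have h1 : z ∈ O z ∩ Uᶜ := by
              rw [hO2 z hz]
              exact hP.mem 0 z hz
            exact h1.1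
      rw [hU'eq]
      exact ih.1.union (isOpen_iUnion hO1)
    · rintro d y (hy | hy)
      · exact Or.inl (ih.2.1 d y hy)
      · exact Or.inr (hP.smul d y hy)
    · intro V hVo hVc hV
      refine stepS hC hB hD ih.1 ih.2.1 ih.2.2 hP hg hVo hVc ?_
      intro y hy
      rcases hV hy.1 with h1 | h1
      · exact absurd h1 hy.2
      · exact h1

end Big

section Prod

variable {D X : Type} [Group D] [MulAction D X] [TopologicalSpace X] [ContinuousConstSMul D X]

theorem gz_mul_right (a b : GZ D) : (a * b).2 = a.2 * b.2 := rfl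

theorem germ_prodS {C : ∀ (G : Type) [Group G], Prop} (hC : Closed C) {K : Set X} {m : ℤ}
    (hK : K.Nonempty) (h : C (GermS D K)) : C (GermS (GZ D) (K ×ˢ ({m} : Set ℤ))) := by
  obtain ⟨x₀, hx₀⟩ := hK
  have hs : ∀ d : stabS (GZ D) (K ×ˢ ({m} : Set ℤ)), d.1.1 ∈ stabS D K ∧
      Multiplicative.toAdd d.1.2 = 0 := by
    intro d
    have h1 : d.1 • ((x₀, m) : X × ℤ) ∈ K ×ˢ ({m} : Set ℤ) := (d.2 (x₀, m)).2 ⟨hx₀, rfl⟩
    have h2 : Multiplicative.toAdd d.1.2 + m = m := h1.2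
    have h3 : Multiplicative.toAdd d.1.2 = 0 := by omega
    refine ⟨fun z => ?_, h3⟩
    have h4 := d.2 (z, m)
    constructor
    · intro hz
      have h5 : d.1 • ((z, m) : X × ℤ) ∈ K ×ˢ ({m} : Set ℤ) := ⟨hz, h2⟩
      exact (h4.1 h5).1
    · intro hz
      exact (h4.2 ⟨hz, rfl⟩).1
  let φ : stabS (GZ D) (K ×ˢ ({m} : Set ℤ)) →* stabS D K :=
    MonoidHom.mk' (fun d => ⟨d.1.1, (hs d).1⟩) (fun a b => rfl)
  have hle : gkerS (GZ D) (K ×ˢ ({m} : Set ℤ)) ≤ (gkerS D K).comap φ := by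
    intro d hd
    have h1 : ∀ᶠ z in 𝓝ˢ (K ×ˢ ({m} : Set ℤ)), d.1 • z = z := hd
    change ∀ᶠ x in 𝓝ˢ K, d.1.1 • x = x
    have hc : Tendsto (fun x : X => ((x, m) : X × ℤ)) (𝓝ˢ K) (𝓝ˢ (K ×ˢ ({m} : Set ℤ))) :=
      (continuous_id.prodMk continuous_const).tendsto_nhdsSet (fun x hx => ⟨hx, rfl⟩)
    filter_upwards [hc.eventually h1] with x hx
    exact congrArg Prod.fst hx
  refine hC.of_injective _ _ (QuotientGroup.map _ _ φ hle) ?_ h
  rw [injective_iff_map_eq_one]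
  intro q hq
  obtain ⟨d, rfl⟩ := QuotientGroup.mk_surjective q
  rw [QuotientGroup.map_mk, QuotientGroup.eq_one_iff] at hq
  rw [QuotientGroup.eq_one_iff]
  have h1 : ∀ᶠ x in 𝓝ˢ K, d.1.1 • x = x := hq
  change ∀ᶠ z in 𝓝ˢ (K ×ˢ ({m} : Set ℤ)), d.1 • z = z
  have hc : Tendsto (fun z : X × ℤ => z.1) (𝓝ˢ (K ×ˢ ({m} : Set ℤ))) (𝓝ˢ K) :=
    continuous_fst.tendsto_nhdsSet (fun z hz => hz.1)
  filter_upwards [hc.eventually h1] with z hz
  rw [gz_smul, hz, (hs d).2, zero_add]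

theorem filt_prod {C : ∀ (G : Type) [Group G], Prop} (hC : Closed C) (U : Set X)
    (hF : Filt C D U) : Filt C (GZ D) (U ×ˢ (Set.univ : Set ℤ)) := by
  induction hF with
  | chain c hc hch ih =>
    have h1 : (⋃₀ c) ×ˢ (Set.univ : Set ℤ) = ⋃₀ ((fun U : Set X => U ×ˢ (Set.univ : Set ℤ)) '' c) := by
      ext ⟨x, m⟩
      constructor
      · rintro ⟨⟨s, hs, hx⟩, _⟩
        exact ⟨_, ⟨s, hs, rfl⟩, hx, trivial⟩
      · rintro ⟨_, ⟨s, hs, rfl⟩, hx, _⟩
        exact ⟨⟨s, hs, hx⟩, trivial⟩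
    rw [h1]
    refine Filt.chain _ ?_ ?_
    · rintro _ ⟨s, hs, rfl⟩
      exact ih s hs
    · rintro _ ⟨s, hs, rfl⟩ _ ⟨t, ht, rfl⟩ _
      rcases hch.total hs ht with h | h
      · exact Or.inl (Set.prod_mono h subset_rfl)
      · exact Or.inr (Set.prod_mono h subset_rfl)
  | step U S P hU hP hg ih =>
    have h1 : (U ∪ S) ×ˢ (Set.univ : Set ℤ) = (U ×ˢ (Set.univ : Set ℤ)) ∪ (S ×ˢ (Set.univ : Set ℤ)) :=
      Set.union_prod
    have h2 : ∀ (x : X) (m : ℤ), ((x, m) : X × ℤ) ∈ (U ×ˢ (Set.univ : Set ℤ))ᶜ ↔ x ∈ Uᶜ := by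
      intro x m
      constructor
      · intro h h'
        exact h ⟨h', trivial⟩
      · intro h h'
        exact h h'.1
    rw [h1]
    refine Filt.step _ _ (fun n p => P n p.1 ×ˢ {p.2}) ih ?_ ?_
    · refine ⟨?_, ?_, ?_, ?_, ?_, ?_, ?_, ?_, ?_, ?_⟩
      · rintro ⟨x, m⟩ hx
        exact (h2 x m).2 (hP.subset hx.1)
      · rintro d ⟨x, m⟩ hx
        exact ⟨hP.smul d.1 x hx.1, trivial⟩
      · rintro n ⟨x, m⟩ hx
        exact ⟨hP.mem n x hx.1, rfl⟩
      · rintro n ⟨x, m⟩ hx ⟨z, k⟩ hz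
        exact ⟨hP.sub n x hx.1 hz.1, trivial⟩
      · rintro n ⟨x, m⟩ hx ⟨z, k⟩ hz
        have h1 : k = m := hz.2
        subst h1
        show P n z ×ˢ {k} = P n x ×ˢ {k}
        rw [hP.eq n x hx.1 z hz.1]
      · rintro n ⟨x, m⟩ hx d ⟨z, k⟩ hz
        have h1 : k = m := hz.2
        subst h1
        exact ⟨hP.inv n x hx.1 d.1 z hz.1, rfl⟩
      · rintro n ⟨x, m⟩ hx
        exact Set.prod_mono (hP.anti n x hx.1) subset_rfl
      · rintro n ⟨x, m⟩ hx
        exact (hP.cpt n x hx.1).prod isCompact_singleton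
      · rintro n ⟨x, m⟩ hx
        obtain ⟨O, h3, h4⟩ := hP.opn n x hx.1
        refine ⟨O ×ˢ {m}, h3.prod (isOpen_discrete _), ?_⟩
        ext ⟨z, k⟩
        constructor
        · rintro ⟨⟨h5, h6⟩, h7⟩
          refine ⟨?_, h6⟩
          rw [← h4]
          exact ⟨h5, (h2 z k).1 h7⟩
        · rintro ⟨h5, h6⟩
          have h7 : z ∈ O ∩ Uᶜ := by
            rw [h4]
            exact h5
          exact ⟨⟨h7.1, h6⟩, (h2 z k).2 h7.2⟩
      · rintro ⟨x, m⟩ hx O hO hxO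
        have hc' : Continuous (fun x : X => ((x, m) : X × ℤ)) :=
          continuous_id.prodMk continuous_const
        obtain ⟨n, hn⟩ := hP.gen x hx.1 _ (hO.preimage hc') hxO
        refine ⟨n, ?_⟩
        rintro ⟨z, k⟩ ⟨h1, h2⟩
        have h3 : k = m := h2
        subst h3
        exact hn h1
    · rintro n ⟨x, m⟩ hx
      exact germ_prodS hC ⟨x, hP.mem n x hx.1⟩ (hg n x hx.1)

theorem basis_prod' [T2Space X]
    (hB : ∀ (y : X) (O : Set X), IsOpen O → y ∈ O → ∃ W, IsOpen W ∧ IsCompact W ∧ y ∈ W ∧ W ⊆ O)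
    (y : X × ℤ) (O : Set (X × ℤ)) (hO : IsOpen O)
    (hy : y ∈ O) : ∃ W, IsOpen W ∧ IsCompact W ∧ y ∈ W ∧ W ⊆ O := by
  have hc : Continuous (fun x : X => ((x, y.2) : X × ℤ)) :=
    continuous_id.prodMk continuous_const
  obtain ⟨W, h1, h2, h3, h4⟩ := hB y.1 _ (hO.preimage hc) hy
  refine ⟨W ×ˢ {y.2}, h1.prod (isOpen_discrete _), h2.prod isCompact_singleton, ⟨h3, rfl⟩, ?_⟩
  rintro ⟨x, n⟩ ⟨hx, hn⟩
  have hn' : n = y.2 := hn
  subst hn'
  exact h4 hx

theorem disp_prod' (V : Set (X × ℤ)) (hV : IsCompact V) :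
    ∃ d : GZ D, ∀ y ∈ V, d • y ∉ V := by
  have h1 : IsCompact (Prod.snd '' V) := hV.image continuous_snd
  obtain ⟨m, hm⟩ := h1.bddAbove
  obtain ⟨l, hl⟩ := h1.bddBelow
  refine ⟨(1, Multiplicative.ofAdd (m - l + 1)), fun y hy hcon => ?_⟩
  have h2 : l ≤ y.2 := hl ⟨y, hy, rfl⟩
  have h3 : (m - l + 1) + y.2 ≤ m := hm ⟨_, hcon, rfl⟩
  omega

/-- The action of a permutation of `X` on `X × {0}`. -/
def lv : Equiv.Perm X →* Equiv.Perm (X × ℤ) where
  toFun h :=
    { toFun := fun p => if p.2 = 0 then (h p.1, p.2) else p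
      invFun := fun p => if p.2 = 0 then (h⁻¹ p.1, p.2) else p
      left_inv := fun p => by
        by_cases hp : p.2 = 0
        · simp only [hp, if_true]
          exact Prod.ext (ia h p.1) hp.symm
        · simp only [hp, if_false]
      right_inv := fun p => by
        by_cases hp : p.2 = 0
        · simp only [hp, if_true]
          exact Prod.ext (ai h p.1) hp.symm
        · simp only [hp, if_false] }
  map_one' := by
    ext p : 1
    change (if p.2 = 0 then (p.1, p.2) else p) = p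
    split_ifs <;> rfl
  map_mul' h k := by
    ext p : 1
    change (if p.2 = 0 then (h (k p.1), p.2) else p) =
      (if (if p.2 = 0 then (k p.1, p.2) else p).2 = 0 then
        (h (if p.2 = 0 then (k p.1, p.2) else p).1, (if p.2 = 0 then (k p.1, p.2) else p).2)
        else (if p.2 = 0 then (k p.1, p.2) else p))
    by_cases hp : p.2 = 0
    · simp only [hp, if_true]
    · simp only [hp, if_false]

theorem lv_apply (h : Equiv.Perm X) (p : X × ℤ) :
    lv h p = if p.2 = 0 then (h p.1, p.2) else p := rfl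

theorem lv_full {h : Equiv.Perm X} (hh : h ∈ full D X) :
    (lv h : Equiv.Perm (X × ℤ)) ∈ full (GZ D) (X × ℤ) := by
  intro y
  have hc : ∀ᶠ z : X × ℤ in 𝓝 y, z.2 = y.2 := by
    have h1 : Tendsto (fun z : X × ℤ => z.2) (𝓝 y) (𝓝 y.2) := continuous_snd.tendsto y
    have h2 : ({y.2} : Set ℤ) ∈ 𝓝 y.2 := (isOpen_discrete _).mem_nhds rfl
    exact h1 h2
  by_cases h0 : y.2 = 0
  · obtain ⟨d, hd⟩ := hh y.1
    have h1 : Tendsto (fun z : X × ℤ => z.1) (𝓝 y) (𝓝 y.1) := continuous_fst.tendsto y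
    refine ⟨((d, 1) : GZ D), ?_⟩
    filter_upwards [hc, h1.eventually hd] with z hz hz2
    rw [lv_apply, if_pos (hz.trans h0), hz2]
    exact Prod.ext rfl (zero_add z.2).symm
  · refine ⟨1, ?_⟩
    filter_upwards [hc] with z hz
    rw [lv_apply, if_neg (fun h' => h0 (hz.symm.trans h')), one_smul]

end Prod

section Final

variable {D X : Type} [Group D] [MulAction D X] [TopologicalSpace X] [ContinuousConstSMul D X]
  [T2Space X]

/-- **The theorem.** -/
theorem main {C : ∀ (G : Type) [Group G], Prop} (hC : ClosedE C)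
    (hB : ∀ (y : X) (O : Set X), IsOpen O → y ∈ O → ∃ W, IsOpen W ∧ IsCompact W ∧ y ∈ W ∧ W ⊆ O)
    (hS : Filt C D (Set.univ : Set X)) {G : Type} [Group G] (j : G →* Equiv.Perm X)
    (hj : ∀ g, j g ∈ full D X) (N : Subgroup G) [N.Normal] (hQ : C (G ⧸ N))
    (hinj : ∀ n ∈ N, j n = 1 → n = 1)
    (hcs : ∀ n ∈ N, ∃ K : Set X, IsCompact K ∧ ∀ x ∉ K, j n x = x) : C G := by
  classical
  refine Pool.Agent.R630.FJ.crit C hC G N hQ ?_
  intro g E hE hEN
  have hF : Filt C (GZ D) (Set.univ : Set (X × ℤ)) := by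
    have h1 := filt_prod hC.base _ hS
    rwa [Set.univ_prod_univ] at h1
  refine realize (D := GZ D) (Y := X × ℤ) disp_prod' (U := Set.univ) (fun _ _ _ => trivial)
    (filt_fv hC (basis_prod' hB) disp_prod' _ hF).2.2
    (lv.comp j) (fun a => lv_full (hj a)) N (fun n hn h1 => hinj n hn ?_) (fun n hn => ?_) g E hE hEN
  · ext x
    have h2 := congrArg (fun f : Equiv.Perm (X × ℤ) => (f (x, 0)).1) h1
    exact h2
  · obtain ⟨K, hK, hKn⟩ := hcs n hn
    have h1 : ∀ x : X, ∃ W, IsOpen W ∧ IsCompact W ∧ x ∈ W := fun x => by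
      obtain ⟨W, a, b, c, _⟩ := hB x Set.univ isOpen_univ trivial
      exact ⟨W, a, b, c⟩
    choose W hW1 hW2 hW3 using h1
    obtain ⟨t, ht⟩ := hK.elim_finite_subcover W hW1 (fun x _ => Set.mem_iUnion.mpr ⟨x, hW3 x⟩)
    refine ⟨(⋃ x ∈ t, W x) ×ˢ {0}, (isOpen_biUnion fun x _ => hW1 x).prod (isOpen_discrete _),
      (t.finite_toSet.isCompact_biUnion fun x _ => hW2 x).prod isCompact_singleton,
      Set.subset_univ _, ?_⟩
    rintro ⟨x, m⟩ hx
    change lv (j n) (x, m) = (x, m)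
    rw [lv_apply]
    split_ifs with h0
    · refine Prod.ext (hKn x fun hxK => hx ⟨ht hxK, h0⟩) rfl
    · rfl

end Final

section Scat

variable {D X : Type} [Group D] [MulAction D X] [TopologicalSpace X] [ContinuousConstSMul D X]
  [T2Space X]

theorem germ_single {C : ∀ (G : Type) [Group G], Prop} (hC : Closed C) (x : X)
    (h : C (Germ D x)) : C (GermS D ({x} : Set X)) := by
  have hs : ∀ d : stabS D ({x} : Set X), d.1 ∈ MulAction.stabilizer D x := fun d =>
    (d.2 x).2 rfl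
  let φ : stabS D ({x} : Set X) →* MulAction.stabilizer D x :=
    MonoidHom.mk' (fun d => ⟨d.1, hs d⟩) (fun a b => rfl)
  have hle : gkerS D ({x} : Set X) ≤ (gker D x).comap φ := by
    intro d hd
    have h1 : ∀ᶠ z in 𝓝ˢ ({x} : Set X), d.1 • z = z := hd
    rw [nhdsSet_singleton] at h1
    exact h1
  refine hC.of_injective _ _ (QuotientGroup.map _ _ φ hle) ?_ h
  rw [injective_iff_map_eq_one]
  intro q hq
  obtain ⟨d, rfl⟩ := QuotientGroup.mk_surjective q
  rw [QuotientGroup.map_mk, QuotientGroup.eq_one_iff] at hq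
  rw [QuotientGroup.eq_one_iff]
  have h1 : ∀ᶠ z in 𝓝 x, d.1 • z = z := hq
  change ∀ᶠ z in 𝓝ˢ ({x} : Set X), d.1 • z = z
  rw [nhdsSet_singleton]
  exact h1

theorem scat {C : ∀ (G : Type) [Group G], Prop} (hC : ClosedE C) (hS : Scattered X)
    (hg : ∀ x : X, C (Germ D x)) : Filt C D (Set.univ : Set X) := by
  classical
  obtain ⟨U, hU⟩ := zorn_subset {U : Set X | Filt C D U ∧ IsOpen U ∧ ∀ (d : D) (y : X), y ∈ U → d • y ∈ U}
    (by
      intro c hc hch
      refine ⟨⋃₀ c, ⟨Filt.chain c (fun s hs => (hc hs).1) hch, isOpen_sUnion fun s hs => (hc hs).2.1,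
        ?_⟩, fun s hs => Set.subset_sUnion_of_mem hs⟩
      rintro d y ⟨s, hs, hy⟩
      exact ⟨s, hs, (hc hs).2.2 d y hy⟩)
  have hU1 := hU.prop
  by_cases hUu : U = Set.univ
  · rw [← hUu]
    exact hU1.1
  exfalso
  obtain ⟨z, hz, O, hO, hOz⟩ := hS Uᶜ hU1.2.1.isClosed_compl (Set.nonempty_compl.mpr hUu)
  let S : Set X := {y | ∃ d : D, d • z = y}
  have hinv : ∀ (d : D) (y : X), d • y ∈ U → y ∈ U := by
    intro d y hy
    have := hU1.2.2 d⁻¹ _ hy
    rwa [inv_smul_smul] at this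
  have hSU : S ⊆ Uᶜ := by
    rintro _ ⟨d, rfl⟩ h
    exact hz (hinv d z h)
  have hopn : ∀ y ∈ S, ∃ O : Set X, IsOpen O ∧ O ∩ Uᶜ = {y} := by
    rintro _ ⟨d, rfl⟩
    refine ⟨(fun y => d⁻¹ • y) ⁻¹' O, hO.preimage (continuous_const_smul d⁻¹), ?_⟩
    ext w
    constructor
    · rintro ⟨h1, h2⟩
      have h3 : d⁻¹ • w ∈ O ∩ Uᶜ := ⟨h1, fun h => h2 (hinv d⁻¹ w h)⟩
      rw [hOz] at h3
      have h4 : d⁻¹ • w = z := h3
      change w = d • z
      rw [← h4, smul_inv_smul]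
    · intro h
      have h1 : w = d • z := h
      subst h1
      have h3 : z ∈ O ∩ Uᶜ := by
        rw [hOz]
        rfl
      refine ⟨?_, hSU ⟨d, rfl⟩⟩
      change d⁻¹ • d • z ∈ O
      rw [inv_smul_smul]
      exact h3.1
  have hBl : Blocks D S Uᶜ (fun _ y => {y}) :=
    { subset := hSU
      smul := by
        rintro d _ ⟨e, rfl⟩
        exact ⟨d * e, mul_smul d e z⟩
      mem := fun _ y _ => rfl
      sub := by
        rintro _ y hy w hw
        have h1 : w = y := hw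
        rw [h1]
        exact hy
      eq := by
        intro _ y _ w hw
        have h1 : w = y := hw
        rw [h1]
      inv := by
        intro _ y _ d w hw
        have h1 : w = y := hw
        rw [h1]
        rfl
      anti := fun _ y _ => subset_rfl
      cpt := fun _ y _ => isCompact_singleton
      opn := fun _ y hy => hopn y hy
      gen := fun y _ O _ hy => ⟨0, Set.singleton_subset_iff.2 hy⟩ }
  have hF : Filt C D (U ∪ S) := Filt.step U S _ hU1.1 hBl (fun _ y _ => germ_single hC.base y (hg y))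
  have hop' : IsOpen (U ∪ S) := by
    choose! O' hO' hO'' using hopn
    have h1 : U ∪ S = U ∪ ⋃ y ∈ S, O' y := by
      ext w
      constructor
      · rintro (hw | hw)
        · exact Or.inl hw
        · right
          refine Set.mem_iUnion₂.2 ⟨w, hw, ?_⟩
          have h2 : w ∈ O' w ∩ Uᶜ := by
            rw [hO'' w hw]
            rfl
          exact h2.1
      · rintro (hw | hw)
        · exact Or.inl hw
        · obtain ⟨y, hy, hwy⟩ := Set.mem_iUnion₂.1 hw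
          by_cases hwU : w ∈ U
          · exact Or.inl hwU
          · right
            have h2 : w ∈ O' y ∩ Uᶜ := ⟨hwy, hwU⟩
            rw [hO'' y hy] at h2
            have h3 : w = y := h2
            rw [h3]
            exact hy
    rw [h1]
    exact hU1.2.1.union (isOpen_biUnion fun y hy => hO' y hy)
  have h2 : U ∪ S ⊆ U := hU.le_of_ge ⟨hF, hop', by
    rintro d y (hy | hy)
    · exact Or.inl (hU1.2.2 d y hy)
    · exact Or.inr (hBl.smul d y hy)⟩ Set.subset_union_left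
  exact hz (h2 (Or.inr ⟨1, one_smul D z⟩))

end Scat

end Pool.Agent.R630.EQ
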