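import Pool.Agent.R615.SC.Main
import Pool.Agent.R630.FJ.Inn

/-!
# Conjugation on compactly supported elements is realized by compactly supported piecewise elements
-/

set_option autoImplicit false

namespace Pool.Agent.R630.EQ

open Pool.Agent.Y110.FJ Filter Topology
open Pool.Agent.Y462.SS (Closed)
open Pool.Agent.R615.SC

section Real

variable {D Y : Type} [Group D] [MulAction D Y] [TopologicalSpace Y] [ContinuousConstSMul D Y]
  [T2Space Y]

theorem realize {C : ∀ (G : Type) [Group G], Prop}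
    (hD : ∀ V : Set Y, IsCompact V → ∃ d : D, ∀ y ∈ V, d • y ∉ V)
    {U : Set Y} (hU : ∀ (d : D) (y : Y), y ∈ U → d • y ∈ U)
    (hP : ∀ V : Set Y, IsOpen V → IsCompact V → V ⊆ U → C (fv D V))
    {A : Type} [Group A] (ψ : A →* Equiv.Perm Y) (hψ : ∀ a, ψ a ∈ full D Y)
    (N : Subgroup A) [N.Normal] (hinj : ∀ n ∈ N, ψ n = 1 → n = 1)
    (hsupp : ∀ n ∈ N, ∃ W, IsOpen W ∧ IsCompact W ∧ W ⊆ U ∧ ∀ y ∉ W, ψ n y = y)
    (g : A) (E : Set A) (hE : E.Finite) (hEN : E ⊆ N) : Realized C g E := by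
  classical
  have hsupp' : ∀ e : A, ∃ W, IsOpen W ∧ IsCompact W ∧ W ⊆ U ∧
      (e ∈ E → ∀ y ∉ W, ψ e y = y) := by
    intro e
    by_cases he : e ∈ E
    · obtain ⟨W, h1, h2, h3, h4⟩ := hsupp e (hEN he)
      exact ⟨W, h1, h2, h3, fun _ => h4⟩
    · exact ⟨∅, isOpen_empty, isCompact_empty, Set.empty_subset _, fun h => absurd h he⟩
  choose w hw1 hw2 hw3 hw4 using hsupp'
  let W : Set Y := ⋃ e ∈ E, w e
  have hWo : IsOpen W := isOpen_biUnion fun e _ => hw1 e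
  have hWc : IsCompact W := hE.isCompact_biUnion fun e _ => hw2 e
  have hWU : W ⊆ U := Set.iUnion₂_subset fun e _ => hw3 e
  have hWe : ∀ e ∈ E, ∀ y ∉ W, ψ e y = y := fun e he y hy =>
    hw4 e he y fun h => hy (Set.mem_biUnion he h)
  have hg : ψ g ∈ full D Y := hψ g
  let gW : Set Y := ψ g '' W
  have hgWo : IsOpen gW := full_isOpen hg hWo
  have hgWc : IsCompact gW := full_isCompact hg hWc
  have hgWU : gW ⊆ U := by
    rintro _ ⟨y, hy, rfl⟩
    exact full_inv_set hg hU (hWU hy)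
  let V₁ : Set Y := W ∪ gW
  have hV₁o : IsOpen V₁ := hWo.union hgWo
  have hV₁c : IsCompact V₁ := hWc.union hgWc
  obtain ⟨δ, hδ⟩ := hD V₁ hV₁c
  let dl : Equiv.Perm Y := MulAction.toPerm δ
  have hdl : dl ∈ full D Y := toPerm_mem δ
  let V₂ : Set Y := V₁ ∪ dl '' V₁
  have hV₂o : IsOpen V₂ := hV₁o.union (full_isOpen hdl hV₁o)
  have hV₂c : IsCompact V₂ := hV₁c.union (full_isCompact hdl hV₁c)
  have hV₂U : V₂ ⊆ U := by
    rintro y (hy | ⟨z, hz, rfl⟩)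
    · rcases hy with hy | hy
      · exact hWU hy
      · exact hgWU hy
    · apply hU
      rcases hz with hz | hz
      · exact hWU hz
      · exact hgWU hz
  have hCP : C (fv D V₂) := hP V₂ hV₂o hV₂c hV₂U
  have hW1 : W ⊆ V₁ := Set.subset_union_left
  have hW2 : gW ⊆ V₁ := Set.subset_union_right
  have hV12 : V₁ ⊆ V₂ := Set.subset_union_left
  have hκ : ∀ y ∈ W, (dl * ψ g) y ∉ W := fun y hy hcon =>
    hδ (ψ g y) (hW2 ⟨y, hy, rfl⟩) (hW1 hcon)
  have hσ : ∀ y ∈ gW, dl y ∉ gW := fun y hy hcon => hδ y (hW2 hy) (hW2 hcon)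
  let κ := sw (dl * ψ g) W hκ
  let σ := sw dl gW hσ
  have hκm : κ ∈ fv D V₂ := by
    refine ⟨sw_mem ((full D Y).mul_mem hdl hg) ⟨hWc.isClosed, hWo⟩ hκ, fun y hy => ?_⟩
    refine sw_of_not _ _ hκ (fun h => hy (hV12 (hW1 h))) (fun h => hy ?_)
    right
    refine ⟨ψ g ((dl * ψ g)⁻¹ y), hW2 ⟨_, h, rfl⟩, ?_⟩
    exact ai (dl * ψ g) y
  have hσm : σ ∈ fv D V₂ := by
    refine ⟨sw_mem hdl ⟨hgWc.isClosed, hgWo⟩ hσ, fun y hy => ?_⟩
    refine sw_of_not _ _ hσ (fun h => hy (hV12 (hW2 h))) (fun h => hy ?_)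
    right
    exact ⟨dl⁻¹ y, hW2 h, ai dl y⟩
  let p : Equiv.Perm Y := σ * κ
  have hpg : ∀ y ∈ W, p y = ψ g y := by
    intro y hy
    have h1 : κ y = dl (ψ g y) := sw_of_mem _ _ hκ hy
    have hgy : ψ g y ∈ gW := ⟨y, hy, rfl⟩
    change σ (κ y) = _
    rw [h1]
    have h2 : dl⁻¹ (dl (ψ g y)) ∈ gW := by rwa [ia]
    refine (sw_of_inv _ _ hσ (hσ _ hgy) h2).trans ?_
    exact ia dl _
  have hle : Subgroup.closure (E ∪ (fun x => g * x * g⁻¹) '' E) ≤ (fv D V₂).comap ψ := by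
    rw [Subgroup.closure_le]
    rintro x (hx | ⟨e, he, rfl⟩)
    · exact ⟨hψ x, fun y hy => hWe x hx y fun h => hy (hV12 (hW1 h))⟩
    · refine ⟨hψ _, fun y hy => ?_⟩
      have h0 : ψ (g * e * g⁻¹) y = ψ g (ψ e ((ψ g)⁻¹ y)) := by
        rw [map_mul, map_mul, map_inv]
        rfl
      change ψ (g * e * g⁻¹) y = y
      rw [h0, hWe e he _ (fun h => hy (hV12 (hW2 ⟨_, h, ai _ _⟩)))]
      exact ai _ _
  have hleN : Subgroup.closure (E ∪ (fun x => g * x * g⁻¹) '' E) ≤ N := by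
    rw [Subgroup.closure_le]
    rintro x (hx | ⟨e, he, rfl⟩)
    · exact hEN hx
    · exact Subgroup.Normal.conj_mem inferInstance e (hEN he) g
  let f : ↥(Subgroup.closure (E ∪ (fun x => g * x * g⁻¹) '' E)) →* fv D V₂ :=
    (ψ.comp (Subgroup.subtype _)).codRestrict (fv D V₂) (fun x => hle x.2)
  refine ⟨fv D V₂, inferInstance, f, ⟨p, (fv D V₂).mul_mem hσm hκm⟩, hCP, ?_, ?_⟩
  · rw [injective_iff_map_eq_one]
    intro a ha
    apply Subtype.ext
    apply hinj _ (hleN a.2)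
    exact congrArg (fun z : fv D V₂ => z.1) ha
  · intro x y hx hy
    apply Subtype.ext
    change ψ y.1 = p * ψ x.1 * p⁻¹
    rw [hy, map_mul, map_mul, map_inv]
    exact conj_eq (ψ x.1) p (ψ g) W (fun z hz => hWe x.1 hx z hz) hpg

end Real

end Pool.Agent.R630.EQ
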